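import Pool.Agent.STS.TDResult

/-!
# Strongly regular graphs with smallest eigenvalue `-m` and graph isomorphism

For every `m ≥ 3`, in both nontrivial infinite types of strongly regular graphs with smallest eigenvalue
`-m` (Latin square type, Steiner type), and for every `k` there are non-isomorphic graphs with the same
parameters which the `k`-dimensional Weisfeiler-Leman algorithm with linear algebra (the
invertible-map test) over all fields of characteristic different from `p` does not distinguish: Cayley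
graphs of Latin square type for every odd prime `p ≥ 2 m - 3`; block graphs of Steiner systems
`S(2, m, v)` for every large prime `p ≡ 1` modulo `m (m - 1)`, and for `p = m`.
-/

namespace Pool.Agent.STS.Extra.AllTypes

open Pool.Agent.STS

open Classical in
theorem result (m : ℕ) (hm : 3 ≤ m) :
    (∀ p k n : ℕ, p.Prime → p ≠ 2 → 2 * m ≤ p + 3 → 1 ≤ k → n = p ^ (512 * k + 16) →
      ∃ (V₁ V₂ : Type) (_ : Fintype V₁) (_ : Fintype V₂) (X₁ : SimpleGraph V₁)
        (X₂ : SimpleGraph V₂), LA.IsCayley X₁ ∧ LA.IsCayley X₂ ∧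
        LA.Twins p k (n ^ 2) (m * (n - 1)) (n - 2 + (m - 1) * (m - 2)) (m * (m - 1)) X₁ X₂) ∧
    ∃ p₀ : ℕ, ∀ p k v : ℕ, p.Prime → (p = m ∨ p₀ ≤ p ∧ p % (m * (m - 1)) = 1) → 1 ≤ k →
      v = m * p ^ (512 * k + 16) →
      ∃ (P : Type) (_ : Fintype P) (B₁ B₂ : Set (Finset P)),
        Fintype.card P = v ∧ IsSteiner m B₁ ∧ IsSteiner m B₂ ∧
        LA.Twins p k (v * (v - 1) / (m * (m - 1))) (m * ((v - 1) / (m - 1) - 1))
          ((v - 1) / (m - 1) - 2 + (m - 1) ^ 2) (m ^ 2) (blockGraph B₁) (blockGraph B₂) :=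
  ⟨fun p k n hp hp2 hmp hk hn => LA.latin_la p hp hp2 k n m hk hn hm hmp, LA.steiner_all m hm⟩

end Pool.Agent.STS.Extra.AllTypes
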