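import Pool.Agent.STS.TDFinal

/-!
# Strongly regular graphs with smallest eigenvalue `-m` and graph isomorphism

Let `m ≥ 3`. For every `q` there is a prime `p > q` such that for all `k ≥ 1`, with `n = p ^ (512 k + 16)` and
`v = m n`, both nontrivial infinite types of strongly regular graphs with smallest eigenvalue `-m` contain
non-isomorphic graphs with the same parameters which the `k`-dimensional Weisfeiler-Leman algorithm with
linear algebra (the invertible-map test) over all fields of characteristic different from `p` does not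
distinguish: Cayley graphs of Latin square type `L_m(n)` and block graphs of Steiner systems `S(2, m, v)`.
-/

namespace Pool.Agent.STS.Extra.BothTypes

open Pool.Agent.STS

open Classical in
theorem result (m : ℕ) (hm : 3 ≤ m) (q : ℕ) : ∃ p : ℕ, p.Prime ∧ q < p ∧ ∀ k n v : ℕ, 1 ≤ k →
    n = p ^ (512 * k + 16) → v = m * n →
    (∃ (V₁ V₂ : Type) (_ : Fintype V₁) (_ : Fintype V₂) (X₁ : SimpleGraph V₁) (X₂ : SimpleGraph V₂),
      LA.IsCayley X₁ ∧ LA.IsCayley X₂ ∧
      LA.Twins p k (n ^ 2) (m * (n - 1)) (n - 2 + (m - 1) * (m - 2)) (m * (m - 1)) X₁ X₂) ∧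
    ∃ (P : Type) (_ : Fintype P) (B₁ B₂ : Set (Finset P)),
      Fintype.card P = v ∧ IsSteiner m B₁ ∧ IsSteiner m B₂ ∧
      LA.Twins p k (v * (v - 1) / (m * (m - 1))) (m * ((v - 1) / (m - 1) - 1))
        ((v - 1) / (m - 1) - 2 + (m - 1) ^ 2) (m ^ 2) (blockGraph B₁) (blockGraph B₂) :=
  LA.both_types m hm q

end Pool.Agent.STS.Extra.BothTypes
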