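import Pool.Agent.STS.SFinal

/-!
# Strongly regular Cayley graphs with smallest eigenvalue `-m` (part (1) of the theorem alone)
-/

namespace Pool.Agent.STS.Extra.CayM

open Pool.Agent.SRGWL Pool.Agent.STS

open Classical in
/-- `X` is a strongly regular graph with the parameters of Latin square type `L_m(n)`, and it is
isomorphic to a Cayley graph of `Γ`. -/
def IsSRGCayley (Γ : Type) [Group Γ] {V : Type} [Fintype V] (X : SimpleGraph V) (m n : ℕ) : Prop :=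
  X.IsSRGWith (n ^ 2) (m * (n - 1)) (n - 2 + (m - 1) * (m - 2)) (m * (m - 1)) ∧
    ∃ S : Set Γ, Nonempty (X ≃g cay Γ S)

theorem part1 (p : ℕ) (hp : p.Prime) (hp2 : p ≠ 2) (m : ℕ) (hm : 3 ≤ m) (hmp : 2 * m ≤ p + 3)
    (k : ℕ) :
    ∃ (H₁ H₂ : Type) (_ : Group H₁) (_ : Group H₂) (_ : Fintype H₁) (_ : Fintype H₂)
      (X₁ : SimpleGraph (H₁ × H₁)) (X₂ : SimpleGraph (H₂ × H₂)) (n : ℕ),
      n = p ^ (768 * k + 272) ∧ Fintype.card H₁ = n ∧ Fintype.card H₂ = n ∧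
      IsSRGCayley (H₁ × H₁) X₁ m n ∧ IsSRGCayley (H₂ × H₂) X₂ m n ∧
      IsEmpty (X₁ ≃g X₂) ∧ Sos.Indist p k X₁ X₂ := by
  have : Fact p.Prime := ⟨hp⟩
  obtain ⟨A, D, r, hall, hD, hiso, hbase, hext⟩ :=
    Sos.exists_special_groups2 p hp2 (3 * k + 1) (by omega)
  have hn : 256 * (3 * k + 1) + 16 = 768 * k + 272 := by ring
  have h0 : CoSkew (0 : CoTup (ZMod p) (Fin (16 * (3 * k + 1)) → ZMod p) 15) := fun _ _ _ => by simp
  have h1 : Fintype.card (G A 0) = p ^ (768 * k + 272) := by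
    rw [← Nat.card_eq_fintype_card, ← hn]
    exact (hall 0 h0).1
  have h2 : Fintype.card (G A D) = p ^ (768 * k + 272) := by
    rw [← Nat.card_eq_fintype_card, ← hn]
    exact (hall D hD).1
  have hbig : (m - 1) ^ 2 < p ^ (768 * k + 272) :=
    calc (m - 1) ^ 2 ≤ p ^ 2 := Nat.pow_le_pow_left (by omega) 2
      _ < p ^ (768 * k + 272) := Nat.pow_lt_pow_right hp.one_lt (by omega)
  have h2n : 2 ≤ p ^ (768 * k + 272) :=
    calc 2 ≤ p := hp.two_le
      _ = p ^ 1 := (pow_one p).symm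
      _ ≤ p ^ (768 * k + 272) := Nat.pow_le_pow_right hp.pos (by omega)
  exact ⟨G A 0, G A D, inferInstance, inferInstance, inferInstance, inferInstance,
    netG (sc (m - 1) A 0), netG (sc (m - 1) A D), _, rfl, h1, h2,
    ⟨snet_isSRG hp2 h0 hm hmp h1 h2n, _, sc_cay _ _ _⟩,
    ⟨snet_isSRG hp2 hD hm hmp h2 h2n, _, sc_cay _ _ _⟩,
    snet_isEmpty hp2 h0 hD hm hmp h1 h2 hbig hiso,
    snet_indist hp2 hD _ (2 * (3 * k + 1)) hbase hext (by omega)⟩

end Pool.Agent.STS.Extra.CayM
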