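import Pool.Agent.STS.FinalLA

/-!
# Strongly regular graphs with smallest eigenvalue `-m` and graph isomorphism

`p` an odd prime, `k ≥ 1`, `n = p ^ (512 k + 16)`.  In both nontrivial infinite types of strongly
regular graphs with smallest eigenvalue `-m` (Latin square type for every `m ≥ 3`, Steiner type for
every odd prime `m`) there are non-isomorphic graphs with the same parameters which the
`k`-dimensional Weisfeiler-Leman algorithm with linear algebra (the invertible-map test) over all fields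
of characteristic different from `p` does not distinguish: for `3 ≤ m ≤ (p + 3) / 2` Cayley graphs of
Latin square type `L_m(n)`, and for `m = p`, `v = p n` block graphs of Steiner systems `S(2, p, v)`.
-/

namespace Pool.Agent.STS.Extra.FamiliesHandin

open Pool.Agent.STS

open Classical in
theorem result (p : ℕ) (hp : p.Prime) (hp2 : p ≠ 2) (k n v : ℕ) (hk : 1 ≤ k)
    (hn : n = p ^ (512 * k + 16)) (hv : v = p * n) :
    (∀ m, 3 ≤ m → 2 * m ≤ p + 3 →
      ∃ (V₁ V₂ : Type) (_ : Fintype V₁) (_ : Fintype V₂) (X₁ : SimpleGraph V₁)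
        (X₂ : SimpleGraph V₂), LA.IsCayley X₁ ∧ LA.IsCayley X₂ ∧
        LA.Twins p k (n ^ 2) (m * (n - 1)) (n - 2 + (m - 1) * (m - 2)) (m * (m - 1)) X₁ X₂) ∧
    ∃ (P : Type) (_ : Fintype P) (B₁ B₂ : Set (Finset P)),
      Fintype.card P = v ∧ IsSteiner p B₁ ∧ IsSteiner p B₂ ∧
      LA.Twins p k (v * (v - 1) / (p * (p - 1))) (p * ((v - 1) / (p - 1) - 1))
        ((v - 1) / (p - 1) - 2 + (p - 1) ^ 2) (p ^ 2) (blockGraph B₁) (blockGraph B₂) :=
  ⟨fun m hm hmp => LA.latin_la p hp hp2 k n m hk hn hm hmp,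
    LA.steiner_la p hp hp2 k v hk (by rw [hv, hn])⟩

end Pool.Agent.STS.Extra.FamiliesHandin
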